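import Mathlib

set_option autoImplicit false

namespace Pool.Agent.H.MP_e2e219_gt

open Set Topology

def SD (X : Type) [TopologicalSpace X] : Prop :=
  T0Space X ∧ ∀ D : Set X, D.Nonempty → DirectedOn (fun x y => x ∈ closure {y}) D →
    ∀ (x : X) (U : Set X), IsOpen U →
      (⋂ d ∈ D, {y | d ∈ closure {y}}) ∩ {y | x ∈ closure {y}} ⊆ U →
      ∃ d ∈ D, {y | d ∈ closure {y}} ∩ {y | x ∈ closure {y}} ⊆ U

inductive YY : Type
  | c : ℕ → YY
  | w : YY
  | a : YY
  | b : YY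
  | t : ℕ → YY

open YY

def le : YY → YY → Prop
  | c n, c m => n ≤ m
  | c _, w => True
  | w, w => True
  | a, a => True
  | b, b => True
  | a, t _ => True
  | b, t _ => True
  | t n, t m => n = m
  | _, _ => False

lemma le_rf (x : YY) : le x x := by
  cases x <;> first | exact True.intro | exact Nat.le_refl _ | exact Eq.refl _

lemma le_tr {x y z : YY} (h : le x y) (h' : le y z) : le x z := by
  cases x <;> cases y <;> first | exact False.elim h | (cases z <;>
    first | exact False.elim h' | exact True.intro | exact Nat.le_trans h h' | exact Eq.trans h h')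

lemma le_anti {x y : YY} (h : le x y) (h' : le y x) : x = y := by
  cases x <;> cases y <;> first | exact False.elim h | exact False.elim h' | rfl |
    exact congrArg _ (Nat.le_antisymm h h') | exact congrArg _ h

instance : TopologicalSpace YY where
  IsOpen U := (∀ x y, le x y → x ∈ U → y ∈ U) ∧ (w ∈ U → ∃ n, c n ∈ U)
  isOpen_univ := ⟨fun _ _ _ _ => trivial, fun _ => ⟨0, trivial⟩⟩
  isOpen_inter U V hU hV := by
    refine ⟨fun x y h hx => ⟨hU.1 x y h hx.1, hV.1 x y h hx.2⟩, fun h => ?_⟩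
    obtain ⟨n, hn⟩ := hU.2 h.1
    obtain ⟨m, hm⟩ := hV.2 h.2
    exact ⟨n + m, hU.1 _ _ (by simp [le]) hn, hV.1 _ _ (by simp [le]) hm⟩
  isOpen_sUnion S hS := by
    refine ⟨?_, ?_⟩
    · rintro x y h ⟨U, hU, hx⟩
      exact ⟨U, hU, (hS U hU).1 x y h hx⟩
    · rintro ⟨U, hU, hx⟩
      obtain ⟨n, hn⟩ := (hS U hU).2 hx
      exact ⟨n, U, hU, hn⟩

lemma openY {U : Set YY} :
    IsOpen U ↔ (∀ x y, le x y → x ∈ U → y ∈ U) ∧ (w ∈ U → ∃ n, c n ∈ U) := Iff.rfl

lemma cl_iff {x y : YY} : x ∈ closure {y} ↔ le x y := by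
  constructor
  · intro h
    refine closure_minimal (t := {x | le x y}) (singleton_subset_iff.2 (le_rf y)) ⟨?_⟩ h
    refine openY.2 ⟨fun u v huv hu hv => hu (le_tr huv hv), fun h => ?_⟩
    cases y with
    | c n => exact ⟨n + 1, by simp [le]⟩
    | w => simp [le] at h
    | _ => exact ⟨0, by simp [le]⟩
  · exact fun h => mem_closure_iff.2 fun U hU hx => ⟨y, (openY.1 hU).1 x y h hx, rfl⟩

instance : T0Space YY := ⟨fun x y h =>
  le_anti (cl_iff.1 (specializes_iff_mem_closure.1 h.specializes'))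
    (cl_iff.1 (specializes_iff_mem_closure.1 h.specializes))⟩

lemma SD_Y : SD YY := by
  refine ⟨inferInstance, fun D hne hdir x U hU h => ?_⟩
  simp only [cl_iff] at hdir h ⊢
  by_cases hm : ∃ d ∈ D, ∀ e ∈ D, le e d
  · obtain ⟨d, hd, hm⟩ := hm
    exact ⟨d, hd, fun y hy => h ⟨mem_iInter₂.2 fun e he => le_tr (hm e he) hy.1, hy.2⟩⟩
  push Not at hm
  have step : ∀ d ∈ D, ∃ e ∈ D, le d e ∧ e ≠ d := by
    intro d hd
    obtain ⟨e, he, h1⟩ := hm d hd
    obtain ⟨f, hf, h2, h3⟩ := hdir d hd e he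
    exact ⟨f, hf, h2, fun h => h1 (h ▸ h3)⟩
  have h1 : ∀ d ∈ D, ∃ n, d = c n := by
    intro d hd
    obtain ⟨e, he, h1, h2⟩ := step d hd
    obtain ⟨f, hf, h3, h4⟩ := step e he
    cases d with
    | c n => exact ⟨n, rfl⟩
    | _ => cases e <;> first | exact False.elim h1 | exact absurd rfl h2 |
        exact absurd (congrArg _ h1.symm) h2 | (cases f <;>
          first | exact False.elim h3 | exact absurd (congrArg _ h3.symm) h4)
  have h2 : ∀ n, ∃ m, n ≤ m ∧ c m ∈ D := by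
    intro n
    induction n with
    | zero =>
      obtain ⟨d, hd⟩ := hne
      obtain ⟨n, rfl⟩ := h1 d hd
      exact ⟨n, Nat.zero_le n, hd⟩
    | succ n ih =>
      obtain ⟨m, h3, h4⟩ := ih
      obtain ⟨e, he, h5, h6⟩ := step _ h4
      obtain ⟨k, rfl⟩ := h1 e he
      simp only [le, ne_eq, c.injEq] at h5 h6
      exact ⟨k, by omega, he⟩
  by_cases hx : le x w
  · obtain ⟨n, hn⟩ := (openY.1 hU).2 (h ⟨mem_iInter₂.2 fun e he => by
      obtain ⟨k, rfl⟩ := h1 e he
      simp [le], hx⟩)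
    obtain ⟨m, h3, h4⟩ := h2 n
    exact ⟨_, h4, fun y hy => (openY.1 hU).1 _ _ (le_tr (show le (c n) (c m) from h3) hy.1) hn⟩
  · obtain ⟨m, -, h4⟩ := h2 0
    refine ⟨_, h4, fun y hy => absurd (le_tr hy.2 ?_) hx⟩
    have := hy.1
    cases y <;> first | exact False.elim this | exact True.intro

lemma bad {P : Type} [TopologicalSpace P] (p q : P → YY) (hp : Continuous p) (hq : Continuous q)
    (mk : YY → YY → P) (h1 : ∀ u v, p (mk u v) = u) (h2 : ∀ u v, q (mk u v) = v)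
    (hm : ∀ u v u' v', le u u' → le v v' → mk u v ∈ closure {mk u' v'}) : ¬ SD P := by
  intro h
  have hle : ∀ (f : P → YY), Continuous f → ∀ x y, x ∈ closure {y} → le (f x) (f y) :=
    fun f hf x y h => cl_iff.1 (specializes_iff_mem_closure.1
      ((specializes_iff_mem_closure.2 h).map hf))
  obtain ⟨_, ⟨n, rfl⟩, hn⟩ := h.2 (range fun n => mk (c n) a) (range_nonempty _)
    (by
      rintro _ ⟨n, rfl⟩ _ ⟨m, rfl⟩
      exact ⟨_, ⟨n + m, rfl⟩, hm _ _ _ _ (by simp [le]) trivial, hm _ _ _ _ (by simp [le]) trivial⟩)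
    (mk (c 0) b) (⋃ n, p ⁻¹' {u | le (c (n + 1)) u} ∩ q ⁻¹' {t n})
    (isOpen_iUnion fun n => IsOpen.inter
      (IsOpen.preimage hp (openY.2 ⟨fun _ _ h h' => le_tr h' h, fun _ => ⟨n + 1, le_rf (c (n + 1))⟩⟩))
      (IsOpen.preimage hq (openY.2 ⟨by
        rintro x y h rfl
        cases y <;> simp_all [le], by simp⟩)))
    (by
      rintro y ⟨h3, h4⟩
      have h5 : ∀ n, mk (c n) a ∈ closure {y} := fun n => mem_iInter₂.1 h3 _ ⟨n, rfl⟩
      have h6 := hle q hq _ _ (h5 0)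
      have h7 := hle q hq _ _ h4
      rw [h2] at h6 h7
      obtain ⟨n, hn⟩ : ∃ n, q y = t n := by
        revert h6 h7
        cases q y <;> simp [le]
      refine mem_iUnion.2 ⟨n, ?_, hn⟩
      have := hle p hp _ _ (h5 (n + 1))
      rwa [h1] at this)
  obtain ⟨k, h3, h4⟩ := mem_iUnion.1 (hn (a := mk (c n) (t n))
    ⟨hm _ _ _ _ (le_rf _) trivial, hm _ _ _ _ (by simp [le]) trivial⟩)
  simp only [mem_preimage, h1, h2, mem_ofPred_eq, le, mem_singleton_iff, t.injEq] at h3 h4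
  omega

end Pool.Agent.H.MP_e2e219_gt
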